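import Pool.Agent.H19.TM.Stm4

/-!
# Project TM3, module J2: regularity of the function of Ankeny and Onishi on bounded intervals
-/

set_option autoImplicit false

namespace Pool.Agent.H15.TM

open Pool.Agent.H19.TM

/-- the constant of the first interval -/
noncomputable def c0 : ℝ := Real.exp (-(4 * Real.eulerMascheroniConstant)) / 24

theorem c0_nonneg : 0 ≤ c0 := by
  unfold c0
  positivity

theorem bdd {j : ℝ → ℝ} (hj : JProp j) (K : ℝ) :
    ∃ B : ℝ, 0 ≤ B ∧ ∀ u : ℝ, u ≤ K → |j u| ≤ B := by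
  obtain ⟨hc, h0, -, -⟩ := hj
  obtain ⟨B, hB⟩ :=
    (isCompact_Icc (a := (0 : ℝ)) (b := K)).exists_bound_of_continuousOn hc.continuousOn
  refine ⟨max B 0, le_max_right _ _, fun u hu => ?_⟩
  rcases le_total u 0 with h | h
  · rw [h0 u h, abs_zero]
    exact le_max_right _ _
  · exact (hB u ⟨h, hu⟩).trans (le_max_left _ _)

/-- the derivative is bounded -/
theorem der_le {j : ℝ → ℝ} (hj : JProp j) {K B : ℝ} (hB0 : 0 ≤ B)
    (hB : ∀ u : ℝ, u ≤ K → |j u| ≤ B) {t : ℝ} (ht : 0 < t) (htK : t ≤ K) :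
    |4 * (j t - j (t - 1)) / t| ≤ 8 * B + 4 * c0 := by
  obtain ⟨-, h0, h1, -⟩ := hj
  have hc0 := c0_nonneg
  rcases le_total t 1 with h | h
  · rw [h0 (t - 1) (by linarith), h1 t ht.le h]
    have h2 : 4 * (Real.exp (-(4 * Real.eulerMascheroniConstant)) / 24 * t ^ 4 - 0) / t =
        4 * c0 * t ^ 3 := by
      unfold c0
      field_simp
      ring
    rw [h2, abs_of_nonneg (by positivity)]
    have h3 : t ^ 3 ≤ 1 := pow_le_one₀ ht.le h
    nlinarith
  · rw [abs_div, abs_of_pos ht, div_le_iff₀ ht, abs_mul, abs_of_pos (by norm_num : (0 : ℝ) < 4)]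
    have h2 := abs_sub (j t) (j (t - 1))
    have h3 := hB t htK
    have h4 := hB (t - 1) (by linarith)
    have h5 : 8 * B + 4 * c0 ≤ (8 * B + 4 * c0) * t := by nlinarith
    linarith

/-- the Lipschitz bound -/
theorem lip {j : ℝ → ℝ} (hj : JProp j) {K B : ℝ} (hB0 : 0 ≤ B)
    (hB : ∀ u : ℝ, u ≤ K → |j u| ≤ B) {u v : ℝ} (hu : u ≤ K) (hv : v ≤ K) :
    |j u - j v| ≤ (8 * B + 4 * c0) * |u - v| := by
  have hc0 := c0_nonneg
  obtain ⟨hc, h0, h1, hd⟩ := id hj
  have key : ∀ u v : ℝ, 0 ≤ u → u < v → v ≤ K → |j v - j u| ≤ (8 * B + 4 * c0) * (v - u) := by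
    intro u v hu huv hv
    obtain ⟨t, ht, hs⟩ := exists_hasDerivAt_eq_slope j (fun t => 4 * (j t - j (t - 1)) / t) huv
      hc.continuousOn (fun t ht => hd t (hu.trans_lt ht.1))
    have h2 : 0 < v - u := sub_pos.mpr huv
    have h3 : j v - j u = (4 * (j t - j (t - 1)) / t) * (v - u) := by
      have h4 : 4 * (j t - j (t - 1)) / t = (j v - j u) / (v - u) := hs
      rw [h4, div_mul_cancel₀ _ h2.ne']
    rw [h3, abs_mul, abs_of_pos h2]
    exact mul_le_mul_of_nonneg_right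
      (der_le hj hB0 hB (hu.trans_lt ht.1) (ht.2.le.trans hv)) h2.le
  have key2 : ∀ u v : ℝ, u ≤ v → v ≤ K → |j v - j u| ≤ (8 * B + 4 * c0) * (v - u) := by
    intro u v huv hv
    rcases le_or_gt 0 u with h | h
    · rcases eq_or_lt_of_le huv with h' | h'
      · subst h'
        simp
      · exact key u v h h' hv
    · rw [h0 u h.le, sub_zero]
      rcases le_or_gt v 0 with h' | h'
      · rw [h0 v h', abs_zero]
        exact mul_nonneg (by positivity) (by linarith)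
      · have h2 := key 0 v le_rfl h' hv
        rw [h0 0 le_rfl, sub_zero, sub_zero] at h2
        refine h2.trans ?_
        refine mul_le_mul_of_nonneg_left ?_ (by positivity)
        linarith
  rcases le_total u v with h | h
  · rw [abs_sub_comm, abs_sub_comm u v, abs_of_nonneg (sub_nonneg.mpr h)]
    exact key2 u v h hv
  · rw [abs_of_nonneg (sub_nonneg.mpr h)]
    exact key2 v u h hu

/-- the derivative is Lipschitz on `[1 / 2, K]` -/
theorem der_lip {j : ℝ → ℝ} {K B C : ℝ}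
    (hB : ∀ u : ℝ, u ≤ K → |j u| ≤ B)
    (hC : ∀ u v : ℝ, u ≤ K → v ≤ K → |j u - j v| ≤ C * |u - v|) {u v : ℝ}
    (hu2 : 1 / 2 ≤ u) (hv2 : 1 / 2 ≤ v) (hu : u ≤ K) (hv : v ≤ K) :
    |4 * (j u - j (u - 1)) / u - 4 * (j v - j (v - 1)) / v| ≤ (16 * C + 32 * B) * |u - v| := by
  have hu0 : 0 < u := by linarith
  have hv0 : 0 < v := by linarith
  have h1 : 4 * (j u - j (u - 1)) / u - 4 * (j v - j (v - 1)) / v =
      (4 / u) * ((j u - j v) - (j (u - 1) - j (v - 1))) +
        (4 / (u * v)) * ((j v - j (v - 1)) * (v - u)) := by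
    field_simp
    ring
  have h2 : |(4 / u) * ((j u - j v) - (j (u - 1) - j (v - 1)))| ≤ 16 * C * |u - v| := by
    have h3 : |(j u - j v) - (j (u - 1) - j (v - 1))| ≤ 2 * C * |u - v| := by
      have h4 := abs_sub (j u - j v) (j (u - 1) - j (v - 1))
      have h5 := hC u v hu hv
      have h6 := hC (u - 1) (v - 1) (by linarith) (by linarith)
      have h7 : u - 1 - (v - 1) = u - v := by ring
      rw [h7] at h6
      linarith
    rw [abs_mul, abs_of_pos (by positivity : 0 < 4 / u)]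
    have h8 : 4 / u ≤ 8 := by
      rw [div_le_iff₀ hu0]
      linarith
    calc 4 / u * |(j u - j v) - (j (u - 1) - j (v - 1))| ≤ 8 * (2 * C * |u - v|) := by
          gcongr
      _ = 16 * C * |u - v| := by ring
  have h3 : |(4 / (u * v)) * ((j v - j (v - 1)) * (v - u))| ≤ 32 * B * |u - v| := by
    have h4 : |j v - j (v - 1)| ≤ 2 * B := by
      have h5 := abs_sub (j v) (j (v - 1))
      have h6 := hB v hv
      have h7 := hB (v - 1) (by linarith)
      linarith
    have h8 : 4 / (u * v) ≤ 16 := by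
      rw [div_le_iff₀ (by positivity)]
      nlinarith
    rw [abs_mul, abs_of_pos (by positivity : 0 < 4 / (u * v)), abs_mul, abs_sub_comm v u]
    calc 4 / (u * v) * (|j v - j (v - 1)| * |u - v|) ≤ 16 * (2 * B * |u - v|) := by
          gcongr
      _ = 32 * B * |u - v| := by ring
  rw [h1]
  have h4 := abs_add_le ((4 / u) * ((j u - j v) - (j (u - 1) - j (v - 1))))
    ((4 / (u * v)) * ((j v - j (v - 1)) * (v - u)))
  have h5 : (16 * C + 32 * B) * |u - v| = 16 * C * |u - v| + 32 * B * |u - v| := by ring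
  linarith

/-- Taylor's formula with an explicit remainder -/
theorem taylor {j : ℝ → ℝ} (hj : JProp j) {K B C : ℝ} (hB0 : 0 ≤ B) (hC0 : 0 ≤ C)
    (hB : ∀ u : ℝ, u ≤ K → |j u| ≤ B)
    (hC : ∀ u v : ℝ, u ≤ K → v ≤ K → |j u - j v| ≤ C * |u - v|) {u x : ℝ}
    (hu : 1 ≤ u) (huK : u ≤ K) (hx0 : 0 ≤ x) (hx : x ≤ 1 / 2) :
    |j (u * (1 - x)) - ((1 - 4 * x) * j u + 4 * x * j (u - 1))| ≤
      (16 * C + 32 * B) * K ^ 2 * x ^ 2 := by
  obtain ⟨hc, h0, h1, hd⟩ := id hj
  rcases eq_or_lt_of_le hx0 with h | h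
  · subst h
    simp
  have hu0 : 0 < u := by linarith
  have hlt : u * (1 - x) < u := by nlinarith
  have hge : 1 / 2 ≤ u * (1 - x) := by nlinarith
  set g : ℝ := 4 * (j u - j (u - 1)) / u with hg
  have hd2 : ∀ t ∈ Set.Ioo (u * (1 - x)) u,
      HasDerivAt (fun t => j t - g * t) (4 * (j t - j (t - 1)) / t - g) t := by
    intro t ht
    have ht0 : 0 < t := by linarith [ht.1]
    have h2 := (hasDerivAt_id t).const_mul g
    rw [mul_one] at h2
    exact (hd t ht0).sub h2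
  obtain ⟨t, ht, hs⟩ := exists_hasDerivAt_eq_slope (fun t => j t - g * t)
    (fun t => 4 * (j t - j (t - 1)) / t - g) hlt
    (hc.sub (continuous_const.mul continuous_id)).continuousOn hd2
  have h2 : 0 < u - u * (1 - x) := sub_pos.mpr hlt
  have h3 : (j u - g * u) - (j (u * (1 - x)) - g * (u * (1 - x))) =
      (4 * (j t - j (t - 1)) / t - g) * (u - u * (1 - x)) := by
    have h4 : 4 * (j t - j (t - 1)) / t - g =
      ((j u - g * u) - (j (u * (1 - x)) - g * (u * (1 - x)))) / (u - u * (1 - x)) := hs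
    rw [h4, div_mul_cancel₀ _ h2.ne']
  have h4 : j (u * (1 - x)) - ((1 - 4 * x) * j u + 4 * x * j (u - 1)) =
      -((j u - g * u) - (j (u * (1 - x)) - g * (u * (1 - x)))) := by
    have h5 : g * u = 4 * (j u - j (u - 1)) := by
      rw [hg, div_mul_cancel₀ _ hu0.ne']
    linear_combination (-x) * h5
  rw [h4, abs_neg, h3, abs_mul, abs_of_pos h2]
  have h5 : |4 * (j t - j (t - 1)) / t - g| ≤ (16 * C + 32 * B) * |t - u| :=
    der_lip hB hC (by linarith [ht.1]) (by linarith) (ht.2.le.trans huK) huK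
  have h6 : |t - u| ≤ u - u * (1 - x) := by
    rw [abs_of_nonpos (by linarith [ht.2])]
    linarith [ht.1]
  have h7 : u - u * (1 - x) = u * x := by ring
  calc |4 * (j t - j (t - 1)) / t - g| * (u - u * (1 - x))
      ≤ ((16 * C + 32 * B) * (u - u * (1 - x))) * (u - u * (1 - x)) := by
        refine mul_le_mul_of_nonneg_right (h5.trans ?_) h2.le
        exact mul_le_mul_of_nonneg_left h6 (by positivity)
    _ = (16 * C + 32 * B) * (u ^ 2 * x ^ 2) := by
        rw [h7]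
        ring
    _ ≤ (16 * C + 32 * B) * (K ^ 2 * x ^ 2) := by
        gcongr
    _ = (16 * C + 32 * B) * K ^ 2 * x ^ 2 := by ring

/-- the first interval -/
theorem first {j : ℝ → ℝ} (hj : JProp j) {u x : ℝ} (hu0 : 0 < u) (hu : u ≤ 1) (hx0 : 0 ≤ x)
    (hx : x ≤ 1 / 2) :
    |j (u * (1 - x)) - ((1 - 4 * x) * j u + 4 * x * j (u - 1))| ≤ 6 * c0 * x ^ 2 := by
  obtain ⟨hc, h0, h1, hd⟩ := id hj
  have hc0 := c0_nonneg
  have h2 : 0 ≤ u * (1 - x) := mul_nonneg hu0.le (by linarith)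
  have h3 : u * (1 - x) ≤ 1 := by nlinarith
  rw [h0 (u - 1) (by linarith), h1 u hu0.le hu, h1 _ h2 h3]
  have h4 : Real.exp (-(4 * Real.eulerMascheroniConstant)) / 24 * (u * (1 - x)) ^ 4 -
      ((1 - 4 * x) * (Real.exp (-(4 * Real.eulerMascheroniConstant)) / 24 * u ^ 4) + 4 * x * 0) =
      c0 * (u ^ 4 * (x ^ 2 * (6 - 4 * x + x ^ 2))) := by
    unfold c0
    ring
  rw [h4]
  have h5 : 0 ≤ 6 - 4 * x + x ^ 2 := by nlinarith
  have h6 : 6 - 4 * x + x ^ 2 ≤ 6 := by nlinarith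
  have h7 : u ^ 4 ≤ 1 := pow_le_one₀ hu0.le hu
  rw [abs_of_nonneg (by positivity)]
  calc c0 * (u ^ 4 * (x ^ 2 * (6 - 4 * x + x ^ 2))) ≤ c0 * (1 * (x ^ 2 * 6)) := by
        gcongr
    _ = 6 * c0 * x ^ 2 := by ring

theorem t_J2 : S_J2 := by
  intro j hj K
  obtain ⟨B, hB0, hB⟩ := bdd hj K
  have hc0 := c0_nonneg
  have hC0 : 0 ≤ 8 * B + 4 * c0 := by positivity
  have hlip : ∀ u v : ℝ, u ≤ K → v ≤ K → |j u - j v| ≤ (8 * B + 4 * c0) * |u - v| :=
    fun u v hu hv => lip hj hB0 hB hu hv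
  have hT0 : 0 ≤ (16 * (8 * B + 4 * c0) + 32 * B) * K ^ 2 := by positivity
  refine ⟨B + (8 * B + 4 * c0) + (16 * (8 * B + 4 * c0) + 32 * B) * K ^ 2 + 6 * c0,
    by positivity, ?_, ?_, ?_⟩
  · intro u hu
    have := hB u hu
    linarith
  · intro u v hu hv
    refine (hlip u v hu hv).trans (mul_le_mul_of_nonneg_right ?_ (abs_nonneg _))
    linarith
  · intro u x hu0 hu hx0 hx
    rcases le_total u 1 with h | h
    · refine (first hj hu0 h hx0 hx).trans (mul_le_mul_of_nonneg_right ?_ (sq_nonneg _))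
      linarith
    · refine (taylor hj hB0 hC0 hB hlip h hu hx0 hx).trans
        (mul_le_mul_of_nonneg_right ?_ (sq_nonneg _))
      linarith

end Pool.Agent.H15.TM
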